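import Mathlib

namespace Pool.Agent.Results.MP_2af1cc_nt.SmallDiv

open Finset

/-- sum of the `k`-th powers of the positive divisors -/
def sig (k n : ℕ) : ℕ := ∑ d ∈ n.divisors, d ^ k

def f (k m : ℕ) : ℚ := ∑ d ∈ m.divisors, 1 / (d : ℚ) ^ k

theorem sig_eq (k m : ℕ) (hm : 0 < m) : (sig k m : ℚ) / (m : ℚ) ^ k = f k m := by
  unfold sig f
  rw [← Nat.sum_div_divisors m (fun d => d ^ k)]
  push_cast
  rw [Finset.sum_div]
  refine Finset.sum_congr rfl fun d hd => ?_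
  have hd0 : (d : ℚ) ≠ 0 := by
    have := Nat.pos_of_mem_divisors hd
    positivity
  have hm0 : (m : ℚ) ≠ 0 := by positivity
  rw [Nat.cast_div (Nat.dvd_of_mem_divisors hd) hd0, div_pow]
  field_simp

theorem step (j : ℕ) (x : ℚ) (hx : 0 < x) :
    (j : ℚ) * (1 / (x + 1) ^ (j + 1)) ≤ 1 / x ^ j - 1 / (x + 1) ^ j := by
  have h1 : (1 : ℚ) + j * (1 / x) ≤ (1 + 1 / x) ^ j :=
    one_add_mul_le_pow (by have : 0 < 1 / x := by positivity
                           linarith) j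
  have h2 : (1 + 1 / x) ^ j = (x + 1) ^ j * (1 / x ^ j) := by
    have : 1 + 1 / x = (x + 1) / x := by field_simp
    rw [this, div_pow]; ring
  have h3 : (j : ℚ) * (1 / (x + 1)) ≤ j * (1 / x) := by
    apply mul_le_mul_of_nonneg_left _ (by positivity)
    exact one_div_le_one_div_of_le hx (by linarith)
  have hp : (0 : ℚ) < 1 / (x + 1) ^ j := by positivity
  have h4 : (1 + j * (1 / (x + 1))) * (1 / (x + 1) ^ j) ≤
      ((x + 1) ^ j * (1 / x ^ j)) * (1 / (x + 1) ^ j) :=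
    mul_le_mul_of_nonneg_right (by linarith) hp.le
  have h5 : ((x + 1) ^ j * (1 / x ^ j)) * (1 / (x + 1) ^ j) = 1 / x ^ j := by field_simp
  have h6 : (1 + j * (1 / (x + 1))) * (1 / (x + 1) ^ j) =
      1 / (x + 1) ^ j + (j : ℚ) * (1 / (x + 1) ^ (j + 1)) := by
    field_simp
    ring
  linarith

theorem tail (j d N : ℕ) (hd : 0 < d) (hN : d ≤ N) :
    (j : ℚ) * ∑ e ∈ Ioc d N, 1 / (e : ℚ) ^ (j + 1) ≤ 1 / (d : ℚ) ^ j - 1 / (N : ℚ) ^ j := by
  induction N, hN using Nat.le_induction with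
  | base => simp
  | succ N hN ih =>
    rw [Finset.sum_Ioc_succ_top hN, mul_add]
    have := step j (N : ℚ) (by have : 0 < N := by omega
                               positivity)
    push_cast
    linarith

theorem tail' (j d N : ℕ) (hd : 0 < d) (hN : d ≤ N) (hj : d ≤ j) :
    ∑ e ∈ Ioc d N, 1 / (e : ℚ) ^ (j + 1) < 1 / (d : ℚ) ^ (j + 1) := by
  have h := tail j d N hd hN
  have hN0 : 0 < N := by omega
  have h1 : (0 : ℚ) < 1 / (N : ℚ) ^ j := by positivity
  have h2 : (0 : ℚ) ≤ ∑ e ∈ Ioc d N, 1 / (e : ℚ) ^ (j + 1) :=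
    Finset.sum_nonneg fun e _ => by positivity
  have h3 : (d : ℚ) ≤ j := by exact_mod_cast hj
  have h4 := mul_le_mul_of_nonneg_right h3 h2
  have hd' : (0 : ℚ) < d := by positivity
  have h5 : 1 / (d : ℚ) ^ j = d * (1 / (d : ℚ) ^ (j + 1)) := by
    field_simp
    ring
  have h6 : (d : ℚ) * ∑ e ∈ Ioc d N, 1 / (e : ℚ) ^ (j + 1) < d * (1 / (d : ℚ) ^ (j + 1)) := by
    linarith
  exact lt_of_mul_lt_mul_left h6 hd'.le

theorem cmp (j a b d : ℕ) (ha : 0 < a) (hb : 0 < b) (hd : 0 < d) (hj : d ≤ j)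
    (h : ∀ e, e < d → e ∣ b → e ∣ a) (h1 : d ∣ a) (h2 : ¬ d ∣ b) :
    f (j + 1) b < f (j + 1) a := by
  have s1 : b.divisors ⊆ (range d).filter (fun e : ℕ => e ∣ b) ∪ Ioc d (b + d) := by
    intro e he
    have e1 := Nat.divisor_le he
    have e2 := Nat.dvd_of_mem_divisors he
    have e3 : e ≠ d := fun h => h2 (h ▸ e2)
    simp only [mem_union, mem_filter, mem_range, mem_Ioc]
    by_cases hlt : e < d
    · exact Or.inl ⟨hlt, e2⟩
    · right; omega
  have s2 : insert d ((range d).filter (fun e : ℕ => e ∣ b)) ⊆ a.divisors := by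
    intro e he
    simp only [mem_insert, mem_filter, mem_range] at he
    rcases he with rfl | he
    · exact Nat.mem_divisors.2 ⟨h1, by omega⟩
    · exact Nat.mem_divisors.2 ⟨h e he.1 he.2, by omega⟩
  have t1 : f (j + 1) b ≤ ∑ e ∈ (range d).filter (fun e : ℕ => e ∣ b) ∪ Ioc d (b + d),
      1 / (e : ℚ) ^ (j + 1) :=
    Finset.sum_le_sum_of_subset_of_nonneg s1 (fun e _ _ => by positivity)
  have t2 : ∑ e ∈ insert d ((range d).filter (fun e : ℕ => e ∣ b)), 1 / (e : ℚ) ^ (j + 1)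
      ≤ f (j + 1) a :=
    Finset.sum_le_sum_of_subset_of_nonneg s2 (fun e _ _ => by positivity)
  have hdisj : Disjoint ((range d).filter (fun e : ℕ => e ∣ b)) (Ioc d (b + d)) := by
    rw [Finset.disjoint_left]
    intro e h1 h2
    simp only [mem_filter, mem_range, mem_Ioc] at h1 h2
    omega
  rw [Finset.sum_union hdisj] at t1
  rw [Finset.sum_insert (by simp)] at t2
  have := tail' j d (b + d) hd (by omega) hj
  linarith

theorem fract_f (j m : ℕ) (hj : 1 ≤ j) (hm : 0 < m) :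
    Int.fract (f (j + 1) m) = f (j + 1) m - 1 := by
  have s1 : m.divisors ⊆ insert 1 (Ioc 1 m) := by
    intro e he
    have e1 := Nat.divisor_le he
    have e2 := Nat.pos_of_mem_divisors he
    simp only [mem_insert, mem_Ioc]
    omega
  have t1 : f (j + 1) m ≤ ∑ e ∈ insert 1 (Ioc 1 m), 1 / ((e : ℕ) : ℚ) ^ (j + 1) :=
    Finset.sum_le_sum_of_subset_of_nonneg s1 (fun e _ _ => by positivity)
  rw [Finset.sum_insert (by simp)] at t1
  have t3 := tail' j 1 m (by omega) hm hj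
  have t2 : 1 / ((1 : ℕ) : ℚ) ^ (j + 1) ≤ f (j + 1) m :=
    Finset.single_le_sum (f := fun e : ℕ => 1 / (e : ℚ) ^ (j + 1)) (fun e _ => by positivity)
      (Nat.one_mem_divisors.2 (by omega))
  have e1 : 1 / ((1 : ℕ) : ℚ) ^ (j + 1) = 1 := by simp
  rw [e1] at t1 t2 t3
  rw [Int.fract_eq_iff]
  exact ⟨by linarith, by linarith, 1, by push_cast; ring⟩

theorem mono (k a b : ℕ) (hb : 0 < b) (h : a ∣ b) (hne : a ≠ b) : f k a < f k b := by
  have ha : 0 < a := Nat.pos_of_dvd_of_pos h hb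
  have hlt : a < b := lt_of_le_of_ne (Nat.le_of_dvd hb h) hne
  refine Finset.sum_lt_sum_of_subset (Nat.divisors_subset_of_dvd (by omega) h) (i := b)
    (Nat.mem_divisors_self b (by omega)) (fun hh => ?_) (by positivity) (fun e _ _ => by positivity)
  have := Nat.divisor_le hh
  omega

theorem result (k n₁ n₂ : ℕ) (hk : 2 ≤ k) (h₁ : 0 < n₁) (h₂ : 0 < n₂) (hne : n₁ ≠ n₂)
    (h : Int.fract ((sig k n₁ : ℚ) / (n₁ : ℚ) ^ k) = Int.fract ((sig k n₂ : ℚ) / (n₂ : ℚ) ^ k)) :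
    (∀ d, d < k → (d ∣ n₁ ↔ d ∣ n₂)) ∧
    (∃ p a, p.Prime ∧ k ≤ p ^ a ∧ p ^ a ∣ n₁ ∧ ¬ p ^ a ∣ n₂) ∧
    (∃ p a, p.Prime ∧ k ≤ p ^ a ∧ p ^ a ∣ n₂ ∧ ¬ p ^ a ∣ n₁) := by
  obtain ⟨j, rfl⟩ : ∃ j, k = j + 1 := ⟨k - 1, by omega⟩
  rw [sig_eq _ _ h₁, sig_eq _ _ h₂, fract_f j _ (by omega) h₁, fract_f j _ (by omega) h₂] at h
  have he : f (j + 1) n₁ = f (j + 1) n₂ := by linarith
  have A : ∀ d, d < j + 1 → (d ∣ n₁ ↔ d ∣ n₂) := by
    intro d
    induction d using Nat.strong_induction_on with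
    | _ d ih =>
      intro hd
      rcases Nat.eq_zero_or_pos d with rfl | hd0
      · simp only [zero_dvd_iff]; omega
      constructor
      · intro g
        by_contra g2
        have := cmp j n₁ n₂ d h₁ h₂ hd0 (by omega) (fun e he => (ih e he (by omega)).2) g g2
        linarith
      · intro g
        by_contra g2
        have := cmp j n₂ n₁ d h₂ h₁ hd0 (by omega) (fun e he => (ih e he (by omega)).1) g g2
        linarith
  refine ⟨A, ?_, ?_⟩
  · by_contra hc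
    push Not at hc
    have : n₁ ∣ n₂ := (Nat.dvd_iff_prime_pow_dvd_dvd n₂ n₁).2 fun p a hp g => by
      by_cases hl : p ^ a < j + 1
      · exact (A _ hl).1 g
      · exact hc p a hp (by omega) g
    have := mono (j + 1) n₁ n₂ h₂ this hne
    linarith
  · by_contra hc
    push Not at hc
    have : n₂ ∣ n₁ := (Nat.dvd_iff_prime_pow_dvd_dvd n₁ n₂).2 fun p a hp g => by
      by_cases hl : p ^ a < j + 1
      · exact (A _ hl).2 g
      · exact hc p a hp (by omega) g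
    have := mono (j + 1) n₂ n₁ h₁ this hne.symm
    linarith

end Pool.Agent.Results.MP_2af1cc_nt.SmallDiv
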